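import Pool.Agent.H88.MCR.Stmts

/-!
Row TWC of the board `mcr`: crossings of the twisted edge.
-/

namespace Pool.MCR

theorem twc_thm (hINB : INB_S) (hPRJ : PRJ_S) (hLOC : LOC_S) (hKIT : KIT_S) (hTWA : TWA_S) :
    TWC_S := by
  intro L _ n D w x hG hw hx hxw hF
  obtain ⟨hS, hFy⟩ := hF
  obtain ⟨hT1, -, hT3⟩ := hTWA L n D w x hG hw hx hxw hS
  obtain ⟨hK1, hK2, -⟩ := hKIT L n D hG
  obtain ⟨-, -, hwA, hwarc, hwself⟩ := hK1 w hw x hx hxw.symm
  obtain ⟨-, -, -, -, -, hL6, hL7⟩ := hLOC L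
  have hI := hINB (L ×ₗ ℤ)
  have hI0 := hINB L
  -- no arc of the old kind away from `pos w` crosses the small arc
  have hsm : ∀ (t : Bool) (c d : L) (γ δ : ℤ), c ≠ D.pos w → d ≠ D.pos w →
      ¬ Cross ((false, lp (D.pos w) 0, lp (D.pos w) 1) : Arc (L ×ₗ ℤ)) (t, lp c γ, lp d δ) := by
    intro t c d γ δ hc hd h
    exact hL7 (D.pos w) c d 0 1 γ δ hc.symm hd.symm h.2
  refine ⟨?_, ?_, ?_, ?_, ?_⟩
  · -- with itself
    rw [hT1]
    intro A hA B hB h
    rw [List.mem_cons] at hA hB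
    rcases hA with rfl | hA <;> rcases hB with rfl | hB
    · exact ((hI _ _ _ _).2.2.2 h.2).2.1 rfl
    · rw [List.mem_map] at hB
      obtain ⟨⟨t, c, d⟩, hB, rfl⟩ := hB
      obtain ⟨-, -, -, hd, -, hc⟩ := hwarc t c d hB
      by_cases hcp : c = D.pos w
      · have h1 := (hc hcp).1
        have h2 : false = t := h.1
        rw [h1, hS] at h2
        exact absurd h2 (by simp)
      · exact hsm t c d _ _ hcp hd h
    · rw [List.mem_map] at hA
      obtain ⟨⟨t, c, d⟩, hA, rfl⟩ := hA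
      obtain ⟨-, -, -, hd, -, hc⟩ := hwarc t c d hA
      by_cases hcp : c = D.pos w
      · have h1 := (hc hcp).1
        have h2 : t = false := h.1
        rw [h1, hS] at h2
        exact absurd h2 (by simp)
      · exact hsm t c d _ _ hcp hd ⟨h.1.symm, ((hI _ _ _ _).2.2.1).1 h.2⟩
    · rw [List.mem_map] at hA
      obtain ⟨⟨t, a, b⟩, hA, rfl⟩ := hA
      rw [List.mem_map] at hB
      obtain ⟨⟨t', c, d⟩, hB, rfl⟩ := hB
      by_cases hab : a = c ∧ b = d
      · obtain ⟨rfl, rfl⟩ := hab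
        exact ((hI _ _ _ _).2.2.2 h.2).2.1 rfl
      · have htt : t = t' := h.1
        subst htt
        obtain ⟨h1, h2, h3, h4⟩ := hwself t a b c d hA hB hab
        have h5 := (hPRJ L a b c d _ _ _ _ h1 h2 h3 h4).1 h.2
        exact hG.self w hw x hx hxw.symm _ hA _ hB ⟨rfl, h5⟩
  · intro z hz hzw hzx
    have h3 : (twist D w x).A w z = (D.A w z).map l0 := by
      apply hT3
      · rintro ⟨-, h⟩
        exact hzx h
      · rintro ⟨h, -⟩
        exact hxw h.symm
    rw [hT1, h3]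
    obtain ⟨-, -, hzA, hzarc, -⟩ := hK1 w hw z hz hzw.symm
    have hcom : ∀ c, c ∈ D.P w x → c ∈ D.P w z → c = D.pos w := by
      intro c hc hc'
      rcases hK2 w hw x hx w hw z hz hxw.symm hzw.symm (fun h => hzx h.2.symm)
        (fun h => hzw h.1.symm) c hc hc' with h | h
      · exact h.1
      · rcases h.2 with h4 | h4
        · exact absurd h4 hxw
        · exact absurd h4.symm hzx
    intro A hA B hB h
    rw [List.mem_map] at hB
    obtain ⟨⟨t', c, d⟩, hB, rfl⟩ := hB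
    obtain ⟨hcP, hdP, -, hd, -, hc⟩ := hzarc t' c d hB
    rw [List.mem_cons] at hA
    rcases hA with rfl | hA
    · by_cases hcp : c = D.pos w
      · refine ((hI _ _ _ _).2.2.2 h.2).2.1 ?_
        show lp (D.pos w) 0 = lp c 0
        rw [hcp]
      · exact hsm t' c d _ _ hcp hd h
    · rw [List.mem_map] at hA
      obtain ⟨⟨t, a, b⟩, hA, rfl⟩ := hA
      obtain ⟨haP, hbP, hab, hb, -, ha⟩ := hwarc t a b hA
      have htt : t = t' := h.1
      by_cases hap : a = D.pos w
      · by_cases hcp : c = D.pos w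
        · obtain ⟨h6, h7⟩ := ha hap
          obtain ⟨h8, h9⟩ := hc hcp
          have h10 : D.S w z = true := by rw [← h8, ← htt, h6, hS]
          have h11 := hFy z hz hzw hzx h10
          have h12 : Inter (lp a (if a = D.pos w then 1 else 0)) (lp b 0) (lp c 0) (lp d 0) := h.2
          rw [if_pos hap, hap, hcp, h7, h9] at h12
          exact hL6 _ _ _ h11 h12
        · have h1 : a ≠ c := fun e => hcp (e ▸ hap)
          have h2 : a ≠ d := fun e => hd (e ▸ hap)
          have h4 : b ≠ c := fun e => hb (hcom b hbP (e ▸ hcP))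
          have h5 : b ≠ d := fun e => hb (hcom b hbP (e ▸ hdP))
          have h6 := (hPRJ L a b c d _ _ _ _ h1 h2 h4 h5).1 h.2
          exact hG.adj w hw x hx z hz hxw.symm hzw.symm hzx.symm _ hA _ hB ⟨htt, h6⟩
      · have h1 : a ≠ c := fun e => hap (hcom a haP (e ▸ hcP))
        have h2 : a ≠ d := fun e => hap (hcom a haP (e ▸ hdP))
        have h4 : b ≠ c := fun e => hb (hcom b hbP (e ▸ hcP))
        have h5 : b ≠ d := fun e => hb (hcom b hbP (e ▸ hdP))
        have h6 := (hPRJ L a b c d _ _ _ _ h1 h2 h4 h5).1 h.2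
        exact hG.adj w hw x hx z hz hxw.symm hzw.symm hzx.symm _ hA _ hB ⟨htt, h6⟩
  · intro z hz hzw hzx
    have h3 : (twist D w x).A x z = (D.A x z).map l0 := by
      apply hT3
      · rintro ⟨h, -⟩
        exact hxw h
      · rintro ⟨-, h⟩
        exact hzw h
    rw [hT1, h3]
    obtain ⟨-, -, hzA, hzarc, -⟩ := hK1 x hx z hz hzx.symm
    have hcom : ∀ c, c ∈ D.P w x → c ∈ D.P x z → c = D.pos x := by
      intro c hc hc'
      rcases hK2 w hw x hx x hx z hz hxw.symm hzx.symm (fun h => hxw h.1.symm)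
        (fun h => hzw h.1.symm) c hc hc' with h | h
      · rcases h.2 with h4 | h4
        · exact absurd h4.symm hxw
        · exact absurd h4.symm hzw
      · exact h.1
    have hpw : D.pos w ∈ D.P w x := List.mem_cons_self
    have hpwx : D.pos w ≠ D.pos x := fun e => hxw (hG.pos_inj w hw x hx e).symm
    intro A hA B hB h
    rw [List.mem_map] at hB
    obtain ⟨⟨t', c, d⟩, hB, rfl⟩ := hB
    obtain ⟨hcP, hdP, -, hd, -, hc⟩ := hzarc t' c d hB
    rw [List.mem_cons] at hA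
    rcases hA with rfl | hA
    · have h1 : c ≠ D.pos w := fun e => hpwx (hcom _ hpw (e ▸ hcP))
      have h2 : d ≠ D.pos w := fun e => hpwx (hcom _ hpw (e ▸ hdP))
      exact hsm t' c d _ _ h1 h2 h
    · rw [List.mem_map] at hA
      obtain ⟨⟨t, a, b⟩, hA, rfl⟩ := hA
      obtain ⟨haP, hbP, hab, hb, hax, ha⟩ := hwarc t a b hA
      have htt : t = t' := h.1
      by_cases hbc : b = c
      · refine ((hI _ _ _ _).2.2.2 h.2).2.2.2.1 ?_
        show lp b 0 = lp c 0
        rw [hbc]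
      · have h1 : a ≠ c := fun e => hax (hcom a haP (e ▸ hcP))
        have h2 : a ≠ d := fun e => hax (hcom a haP (e ▸ hdP))
        have h5 : b ≠ d := by
          intro e
          have h6 := hcom b hbP (e ▸ hdP)
          exact hd (e ▸ h6)
        have h6 := (hPRJ L a b c d _ _ _ _ h1 h2 hbc h5).1 h.2
        have h7 := hG.symA w hw x hx hxw.symm t a b hA
        exact hG.adj x hx w hw z hz hxw hzx.symm hzw.symm _ h7 _ hB
          ⟨htt, ((hI0 _ _ _ _).1).1 h6⟩
  · intro z hz t₀ ht hzt hzw hzx htw htx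
    have h3 : (twist D w x).A z t₀ = (D.A z t₀).map l0 := by
      apply hT3
      · rintro ⟨h, -⟩
        exact hzw h
      · rintro ⟨h, -⟩
        exact hzx h
    rw [hT1, h3]
    have hcom : ∀ c, c ∈ D.P w x → c ∈ D.P z t₀ → False := by
      intro c hc hc'
      rcases hK2 w hw x hx z hz t₀ ht hxw.symm hzt (fun h => hzw h.1.symm)
        (fun h => htw h.1.symm) c hc hc' with h | h
      · rcases h.2 with h4 | h4
        · exact hzw h4.symm
        · exact htw h4.symm
      · rcases h.2 with h4 | h4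
        · exact hzx h4.symm
        · exact htx h4.symm
    obtain ⟨-, -, -, hzarc, -⟩ := hK1 z hz t₀ ht hzt
    have hpw : D.pos w ∈ D.P w x := List.mem_cons_self
    have key : ∀ A ∈ ((false, lp (D.pos w) 0, lp (D.pos w) 1) : Arc (L ×ₗ ℤ)) ::
        (D.A w x).map (ta D w), ∀ B ∈ (D.A z t₀).map l0, Cross A B →
        ∃ A₀ ∈ D.A w x, ∃ B₀ ∈ D.A z t₀, A = ta D w A₀ ∧ B = l0 B₀ ∧ Cross A₀ B₀ := by
      intro A hA B hB h
      rw [List.mem_map] at hB
      obtain ⟨⟨t', c, d⟩, hB, rfl⟩ := hB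
      obtain ⟨hcP, hdP, -, hd, -, hc⟩ := hzarc t' c d hB
      rw [List.mem_cons] at hA
      rcases hA with rfl | hA
      · exfalso
        have h1 : c ≠ D.pos w := fun e => hcom _ hpw (e ▸ hcP)
        have h2 : d ≠ D.pos w := fun e => hcom _ hpw (e ▸ hdP)
        exact hsm t' c d _ _ h1 h2 h
      · rw [List.mem_map] at hA
        obtain ⟨⟨t, a, b⟩, hA, rfl⟩ := hA
        obtain ⟨haP, hbP, hab, hb, hax, ha⟩ := hwarc t a b hA
        refine ⟨_, hA, _, hB, rfl, rfl, h.1, ?_⟩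
        exact (hPRJ L a b c d _ _ _ _ (fun e => hcom a haP (e ▸ hcP))
          (fun e => hcom a haP (e ▸ hdP)) (fun e => hcom b hbP (e ▸ hcP))
          (fun e => hcom b hbP (e ▸ hdP))).1 h.2
    intro A hA B hB A' hA' B' hB' h h'
    obtain ⟨A₀, hA₀, B₀, hB₀, rfl, rfl, h₀⟩ := key A hA B hB h
    obtain ⟨A₁, hA₁, B₁, hB₁, rfl, rfl, h₁⟩ := key A' hA' B' hB' h'
    obtain ⟨rfl, rfl⟩ := hG.two w hw x hx z hz t₀ ht hxw.symm hzt hzw.symm htw.symm hzx.symm
      htx.symm A₀ hA₀ B₀ hB₀ A₁ hA₁ B₁ hB₁ h₀ h₁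
    exact ⟨rfl, rfl⟩
  · intro z hz t₀ ht hzt hzw hzx htw htx hex
    have h3 : (twist D w x).A z t₀ = (D.A z t₀).map l0 := by
      apply hT3
      · rintro ⟨h, -⟩
        exact hzw h
      · rintro ⟨h, -⟩
        exact hzx h
    rw [hT1, h3]
    have hcom : ∀ c, c ∈ D.P w x → c ∈ D.P z t₀ → False := by
      intro c hc hc'
      rcases hK2 w hw x hx z hz t₀ ht hxw.symm hzt (fun h => hzw h.1.symm)
        (fun h => htw h.1.symm) c hc hc' with h | h
      · rcases h.2 with h4 | h4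
        · exact hzw h4.symm
        · exact htw h4.symm
      · rcases h.2 with h4 | h4
        · exact hzx h4.symm
        · exact htx h4.symm
    obtain ⟨-, -, -, hzarc, -⟩ := hK1 z hz t₀ ht hzt
    obtain ⟨⟨t, a, b⟩, hA, ⟨t', c, d⟩, hB, h⟩ := hex
    obtain ⟨hcP, hdP, -, -, -, -⟩ := hzarc t' c d hB
    obtain ⟨haP, hbP, -, -, -, -⟩ := hwarc t a b hA
    refine ⟨ta D w (t, a, b), List.mem_cons_of_mem _ (List.mem_map_of_mem hA), l0 (t', c, d),
      List.mem_map_of_mem hB, h.1, ?_⟩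
    exact (hPRJ L a b c d _ _ _ _ (fun e => hcom a haP (e ▸ hcP))
      (fun e => hcom a haP (e ▸ hdP)) (fun e => hcom b hbP (e ▸ hcP))
      (fun e => hcom b hbP (e ▸ hdP))).2 h.2

end Pool.MCR
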